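import Pool.Agent.H28.GU.TargetsC

/-!
# VN: decomposed frequencies give a large Gowers norm of lower order
-/

set_option autoImplicit false

open Finset

namespace Pool.Agent.H63.GU

open Pool.Agent.H28.GU

variable {q : ℕ} [NeZero q]

theorem gw_succ (d : ℕ) (u : ZMod q → ℝ) :
    Gw (d + 1) u = ∑ h, Gw d (fun x => u x * u (x + h)) := by
  unfold Gw
  rw [← (Fin.consEquiv (fun _ : Fin (d + 1) => ZMod q)).sum_comp, Fintype.sum_prod_type]
  rfl

theorem norm_sq_hat (x : ZMod q → ℝ) (ξ : ZMod q) :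
    (((‖hat x ξ‖ ^ 2 : ℝ)) : ℂ) =
      ∑ h : ZMod q, ∑ n : ZMod q, (((x n * x (n + h) : ℝ)) : ℂ) * ZMod.stdAddChar (-(h * ξ)) := by
  have h1 : (((‖hat x ξ‖ ^ 2 : ℝ)) : ℂ) = hat x ξ * (starRingEnd ℂ) (hat x ξ) := by
    rw [Complex.mul_conj']
    push_cast
    rfl
  have h2 : (starRingEnd ℂ) (hat x ξ) =
      ∑ m : ZMod q, ((x m : ℝ) : ℂ) * ZMod.stdAddChar (-(m * ξ)) := by
    unfold hat
    rw [map_sum]
    refine sum_congr rfl fun m _ => ?_
    rw [map_mul, Complex.conj_ofReal, AddChar.map_neg_eq_conj]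
  rw [h1, h2]
  unfold hat
  rw [sum_mul, sum_comm]
  refine sum_congr rfl fun n _ => ?_
  rw [mul_sum, ← Equiv.sum_comp (Equiv.addLeft n)]
  refine sum_congr rfl fun h _ => ?_
  rw [Equiv.coe_addLeft]
  have e : (ZMod.stdAddChar (n * ξ) : ℂ) * ZMod.stdAddChar (-((n + h) * ξ)) =
      ZMod.stdAddChar (-(h * ξ)) := by
    rw [← AddChar.map_add_eq_mul]
    congr 1
    ring
  rw [← e]
  push_cast
  ring

theorem norm_hat_le {x : ZMod q → ℝ} (hx : ∀ n, |x n| ≤ 1) (ξ : ZMod q) : ‖hat x ξ‖ ≤ q := by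
  unfold hat
  refine (norm_sum_le _ _).trans ?_
  have h1 : ∀ n : ZMod q, ‖((x n : ℝ) : ℂ) * ZMod.stdAddChar (n * ξ)‖ ≤ 1 := by
    intro n
    rw [norm_mul, AddChar.norm_apply, mul_one, Complex.norm_real]
    exact hx n
  refine (sum_le_sum fun n _ => h1 n).trans ?_
  rw [sum_const, card_univ, ZMod.card, nsmul_eq_mul, mul_one]

omit [NeZero q] in
/-- the derivative with a product -/
theorem dl_mul_shift (hDL : T_DL) (d : ℕ) (s : Fin d → ZMod q) (u : ZMod q → ℝ) (n h : ZMod q) :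
    Dl d s u n * Dl d s u (n + h) = Dl d s (fun y => u y * u (y + h)) n := by
  obtain ⟨_, _, h3, h4, _⟩ := hDL
  rw [← h4 (ZMod q) d s h u n, ← h3 (ZMod q) d s u _ n]

/-- a coordinate outside `A` -/
noncomputable def out {d : ℕ} (hd : 1 ≤ d) (A : Finset (Fin d)) : Fin d :=
  open Classical in if h : ∃ i, i ∉ A then h.choose else ⟨0, hd⟩

theorem out_notMem {d : ℕ} (hd : 1 ≤ d) {A : Finset (Fin d)} (h : A ≠ univ) : out hd A ∉ A := by
  classical
  have h1 : ∃ i, i ∉ A := by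
    by_contra hcon
    push Not at hcon
    exact h (eq_univ_iff_forall.2 hcon)
  unfold out
  rw [dif_pos h1]
  exact h1.choose_spec

open Classical in
/-- the functions of the box inequality -/
noncomputable def bb {d : ℕ} (hd : 1 ≤ d) (w : ZMod q → ℝ) (v : Fin d → (Fin d → ZMod q) → ZMod q)
    (h : ZMod q) (i : Fin d) (n : ZMod q) (s : Fin d → ZMod q) : ℂ :=
  ZMod.stdAddChar (-(h * v i s)) *
    ∏ A ∈ (univ.erase (univ : Finset (Fin d))).filter (fun A => out hd A = i),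
      ((w (n + ∑ j ∈ A, s j) : ℝ) : ℂ)

theorem bb_norm {d : ℕ} (hd : 1 ≤ d) {w : ZMod q → ℝ} (hw : ∀ n, |w n| ≤ 1)
    (v : Fin d → (Fin d → ZMod q) → ZMod q) (h : ZMod q) (i : Fin d) (n : ZMod q)
    (s : Fin d → ZMod q) : ‖bb hd w v h i n s‖ ≤ 1 := by
  classical
  unfold bb
  rw [norm_mul, AddChar.norm_apply, one_mul, norm_prod]
  refine prod_le_one (fun _ _ => norm_nonneg _) fun A _ => ?_
  rw [Complex.norm_real]
  exact hw _

theorem bb_update {d : ℕ} (hd : 1 ≤ d) (w : ZMod q → ℝ) {v : Fin d → (Fin d → ZMod q) → ZMod q}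
    (hv : ∀ i z t, v i (Function.update z i t) = v i z) (h : ZMod q) (i : Fin d) (n : ZMod q)
    (s : Fin d → ZMod q) (t : ZMod q) :
    bb hd w v h i n (Function.update s i t) = bb hd w v h i n s := by
  classical
  unfold bb
  rw [hv]
  congr 1
  refine prod_congr rfl fun A hA => ?_
  rw [mem_filter, mem_erase] at hA
  have h1 : i ∉ A := by
    rw [← hA.2]
    exact out_notMem hd hA.1.1
  have h2 : ∑ j ∈ A, Function.update s i t j = ∑ j ∈ A, s j := by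
    refine sum_congr rfl fun j hj => ?_
    rw [Function.update_of_ne]
    rintro rfl
    exact h1 hj
  rw [h2]

theorem addChar_sum {ι : Type} (s : Finset ι) (f : ι → ZMod q) :
    (ZMod.stdAddChar (∑ i ∈ s, f i) : ℂ) = ∏ i ∈ s, ZMod.stdAddChar (f i) := by
  classical
  induction s using Finset.induction_on with
  | empty => simp
  | insert i s hi ih => rw [sum_insert hi, prod_insert hi, AddChar.map_add_eq_mul, ih]

theorem bb_prod (hDL : T_DL) {d : ℕ} (hd : 1 ≤ d) (w : ZMod q → ℝ)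
    (v : Fin d → (Fin d → ZMod q) → ZMod q) (h n : ZMod q) (s : Fin d → ZMod q) :
    ((w (n + ∑ i, s i) : ℝ) : ℂ) * ∏ i, bb hd w v h i n s =
      ((Dl d s w n : ℝ) : ℂ) * ZMod.stdAddChar (-(h * ∑ i, v i s)) := by
  classical
  have h1 := hDL.1 (ZMod q) d s w n
  rw [h1, ← mul_prod_erase univ _ (mem_univ (univ : Finset (Fin d)))]
  unfold bb
  rw [prod_mul_distrib]
  have h2 : ∏ i : Fin d, ∏ A ∈ (univ.erase (univ : Finset (Fin d))).filter
      (fun A => out hd A = i), ((w (n + ∑ j ∈ A, s j) : ℝ) : ℂ) =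
      ∏ A ∈ univ.erase (univ : Finset (Fin d)), ((w (n + ∑ j ∈ A, s j) : ℝ) : ℂ) :=
    prod_fiberwise _ _ _
  have h3 : (∏ i : Fin d, (ZMod.stdAddChar (-(h * v i s)) : ℂ)) =
      ZMod.stdAddChar (-(h * ∑ i, v i s)) := by
    rw [mul_sum, ← sum_neg_distrib, addChar_sum]
  rw [h2, h3]
  push_cast
  ring

theorem main_bound (hDL : T_DL) (hBC : T_BC) {d : ℕ} (hd : 1 ≤ d) {u : ZMod q → ℝ}
    (hu : ∀ n, |u n| ≤ 1) {v : Fin d → (Fin d → ZMod q) → ZMod q}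
    (hv : ∀ i z t, v i (Function.update z i t) = v i z) :
    (∑ s : Fin d → ZMod q, ‖hat (Dl d s u) (∑ i, v i s)‖ ^ 2) ^ (2 ^ d) ≤
      (q : ℝ) ^ ((d + 2) * (2 ^ d - 1)) * Gw (d + 1) u := by
  classical
  obtain ⟨I, hI⟩ : ∃ I : ZMod q → ℂ, I = fun h => ∑ n : ZMod q, ∑ s : Fin d → ZMod q,
      (((u (n + ∑ i, s i) * u (n + ∑ i, s i + h) : ℝ)) : ℂ) *
        ∏ i, bb hd (fun y => u y * u (y + h)) v h i n s := ⟨_, rfl⟩
  have h1 : ((∑ s : Fin d → ZMod q, ‖hat (Dl d s u) (∑ i, v i s)‖ ^ 2 : ℝ) : ℂ) = ∑ h, I h := by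
    rw [Complex.ofReal_sum]
    have e1 : ∀ s : Fin d → ZMod q, ((‖hat (Dl d s u) (∑ i, v i s)‖ ^ 2 : ℝ) : ℂ) =
        ∑ h : ZMod q, ∑ n : ZMod q, (((u (n + ∑ i, s i) * u (n + ∑ i, s i + h) : ℝ)) : ℂ) *
        ∏ i, bb hd (fun y => u y * u (y + h)) v h i n s := by
      intro s
      rw [norm_sq_hat]
      refine sum_congr rfl fun h _ => sum_congr rfl fun n _ => ?_
      rw [dl_mul_shift hDL]
      exact (bb_prod hDL hd (fun y => u y * u (y + h)) v h n s).symm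
    rw [sum_congr rfl fun s _ => e1 s, sum_comm, hI]
    refine sum_congr rfl fun h _ => sum_comm
  have h2 : ∑ s : Fin d → ZMod q, ‖hat (Dl d s u) (∑ i, v i s)‖ ^ 2 ≤ ∑ h, ‖I h‖ := by
    have h3 : ‖((∑ s : Fin d → ZMod q, ‖hat (Dl d s u) (∑ i, v i s)‖ ^ 2 : ℝ) : ℂ)‖ =
        ∑ s : Fin d → ZMod q, ‖hat (Dl d s u) (∑ i, v i s)‖ ^ 2 := by
      rw [Complex.norm_real, Real.norm_of_nonneg]
      exact sum_nonneg fun s _ => by positivity
    rw [← h3, h1]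
    exact norm_sum_le _ _
  have h3 : ∀ h, ‖I h‖ ^ (2 ^ d) ≤ (q : ℝ) ^ ((d + 1) * (2 ^ d - 1)) *
      Gw d (fun y => u y * u (y + h)) := by
    intro h
    rw [hI]
    refine hBC d q (fun y => u y * u (y + h)) (bb hd (fun y => u y * u (y + h)) v h) hd
      (fun i n s => bb_norm hd (fun y => ?_) v h i n s)
      (fun i n s t => bb_update hd _ hv h i n s t)
    rw [abs_mul]
    exact mul_le_one₀ (hu _) (abs_nonneg _) (hu _)
  obtain ⟨m, hm⟩ : ∃ m, 2 ^ d = m + 1 := ⟨2 ^ d - 1, by have := Nat.one_le_two_pow (n := d); omega⟩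
  have hq : (0 : ℝ) < q := by exact_mod_cast NeZero.pos q
  have h4 : (∑ h, ‖I h‖) ^ (m + 1) ≤ (q : ℝ) ^ m * ∑ h, ‖I h‖ ^ (m + 1) := by
    have h5 := pow_sum_div_card_le_sum_pow (s := (univ : Finset (ZMod q))) (f := fun h => ‖I h‖)
      (fun _ _ => norm_nonneg _) m
    rw [card_univ, ZMod.card, div_le_iff₀ (by positivity)] at h5
    rw [mul_comm]
    exact h5
  rw [hm]
  calc (∑ s : Fin d → ZMod q, ‖hat (Dl d s u) (∑ i, v i s)‖ ^ 2) ^ (m + 1) ≤
      (∑ h, ‖I h‖) ^ (m + 1) := pow_le_pow_left₀ (sum_nonneg fun s _ => by positivity) h2 _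
    _ ≤ (q : ℝ) ^ m * ∑ h, ‖I h‖ ^ (m + 1) := h4
    _ ≤ (q : ℝ) ^ m * ∑ h, ((q : ℝ) ^ ((d + 1) * (2 ^ d - 1)) *
        Gw d (fun y => u y * u (y + h))) := by
      refine mul_le_mul_of_nonneg_left (sum_le_sum fun h _ => ?_) (by positivity)
      rw [← hm]
      exact h3 h
    _ = (q : ℝ) ^ ((d + 2) * (m + 1 - 1)) * Gw (d + 1) u := by
      rw [gw_succ, ← mul_sum, ← mul_assoc, ← pow_add, hm]
      congr 2
      have : m + 1 - 1 = m := rfl
      rw [this]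
      ring

theorem gw_one (u : ZMod q → ℝ) : Gw 1 u = ‖hat u 0‖ ^ 2 := by
  have h1 := norm_sq_hat u 0
  have h2 : ((Gw 1 u : ℝ) : ℂ) = ((‖hat u 0‖ ^ 2 : ℝ) : ℂ) := by
    rw [h1, gw_succ, Complex.ofReal_sum]
    refine sum_congr rfl fun h _ => ?_
    unfold Gw
    rw [Fintype.sum_unique, Complex.ofReal_sum]
    refine sum_congr rfl fun n _ => ?_
    rw [mul_zero, neg_zero, AddChar.map_zero_eq_one, mul_one]
    rfl
  exact_mod_cast h2

theorem pf_VN (hDL : T_DL) (hBC : T_BC) : T_VN := by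
  intro d f hf
  refine ⟨f ^ (3 * 2 ^ d), by positivity, ?_⟩
  intro q _ u S v hu hv hS hh
  have hq : (0 : ℝ) < q := by exact_mod_cast NeZero.pos q
  have hSc : (0 : ℝ) < S.card := lt_of_lt_of_le (by positivity) hS
  obtain ⟨s0, hs0⟩ : S.Nonempty := by
    rw [← card_pos]
    exact_mod_cast hSc
  have hf1 : f ≤ 1 := by
    have h1 := (hh s0 hs0).trans (norm_hat_le (hDL.2.2.2.2 (ZMod q) d s0 u hu) _)
    by_contra hcon
    rw [not_le] at hcon
    nlinarith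
  rcases Nat.eq_zero_or_pos d with rfl | hd
  · have h1 := hh s0 hs0
    rw [Fintype.sum_empty] at h1
    have h2 : f * q ≤ ‖hat u 0‖ := h1
    have h3 : (f * q) ^ 2 ≤ Gw 1 u := by
      rw [gw_one]
      exact pow_le_pow_left₀ (by positivity) h2 2
    have h4 : f ^ (3 * 2 ^ 0) ≤ f ^ 2 := pow_le_pow_of_le_one hf.le hf1 (by norm_num)
    calc f ^ (3 * 2 ^ 0) * (q : ℝ) ^ (0 + 2) ≤ f ^ 2 * (q : ℝ) ^ 2 :=
          mul_le_mul_of_nonneg_right h4 (by positivity)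
      _ = (f * q) ^ 2 := by ring
      _ ≤ Gw (0 + 1) u := h3
  · have h1 : f ^ 3 * (q : ℝ) ^ (d + 2) ≤
        ∑ s : Fin d → ZMod q, ‖hat (Dl d s u) (∑ i, v i s)‖ ^ 2 := by
      calc f ^ 3 * (q : ℝ) ^ (d + 2) = (f * (q : ℝ) ^ d) * (f * q) ^ 2 := by ring
        _ ≤ S.card * (f * q) ^ 2 := mul_le_mul_of_nonneg_right hS (by positivity)
        _ = ∑ s ∈ S, (f * q) ^ 2 := by rw [sum_const, nsmul_eq_mul]
        _ ≤ ∑ s ∈ S, ‖hat (Dl d s u) (∑ i, v i s)‖ ^ 2 :=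
          sum_le_sum fun s hs => pow_le_pow_left₀ (by positivity) (hh s hs) 2
        _ ≤ ∑ s : Fin d → ZMod q, ‖hat (Dl d s u) (∑ i, v i s)‖ ^ 2 :=
          sum_le_sum_of_subset_of_nonneg (subset_univ _) fun s _ _ => by positivity
    have h2 := main_bound hDL hBC hd hu hv
    obtain ⟨m, hm⟩ : ∃ m, 2 ^ d = m + 1 :=
      ⟨2 ^ d - 1, by have := Nat.one_le_two_pow (n := d); omega⟩
    rw [hm, Nat.add_sub_cancel] at h2
    rw [hm]
    have h3 : (f ^ 3 * (q : ℝ) ^ (d + 2)) ^ (m + 1) ≤ (q : ℝ) ^ ((d + 2) * m) * Gw (d + 1) u :=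
      (pow_le_pow_left₀ (by positivity) h1 _).trans h2
    have h4 : (f ^ 3 * (q : ℝ) ^ (d + 2)) ^ (m + 1) =
        (q : ℝ) ^ ((d + 2) * m) * (f ^ (3 * (m + 1)) * (q : ℝ) ^ (d + 2)) := by
      rw [mul_pow, ← pow_mul, ← pow_mul, Nat.mul_succ (d + 2) m, pow_add]
      ring
    rw [h4] at h3
    exact le_of_mul_le_mul_left h3 (by positivity)

end Pool.Agent.H63.GU
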