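import Pool.Agent.H28.GU.TargetsC

/-!
# RD: a dilation which moves the nonzero elements of a small set away from zero
-/

set_option autoImplicit false

open Finset

namespace Pool.Agent.H63.GU

open Pool.Agent.H28.GU

theorem card_small (q : ℕ) [Fact q.Prime] (κ : ℝ) (hκ : 0 ≤ κ) (v : ZMod q) (hv : v ≠ 0) :
    ((univ.filter (fun r : ZMod q => r ≠ 0 ∧ nr (r * v) < κ)).card : ℝ) ≤ 2 * κ * q := by
  classical
  have hq : (0 : ℝ) < q := by exact_mod_cast (Fact.out : q.Prime).pos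
  obtain ⟨m, hm⟩ : ∃ m : ℕ, m = ⌊κ * q⌋₊ := ⟨_, rfl⟩
  have hmap : ∀ r ∈ univ.filter (fun r : ZMod q => r ≠ 0 ∧ nr (r * v) < κ),
      (r * v).valMinAbs ∈ (Icc (-(m : ℤ)) m).erase 0 := by
    intro r hr
    rw [mem_filter] at hr
    obtain ⟨_, hr0, hr1⟩ := hr
    rw [mem_erase, mem_Icc]
    refine ⟨fun h => ?_, ?_⟩
    · rw [ZMod.valMinAbs_eq_zero] at h
      exact (mul_ne_zero hr0 hv) h
    · unfold nr at hr1
      rw [div_lt_iff₀ hq] at hr1
      have h1 : (((r * v).valMinAbs.natAbs : ℕ) : ℝ) ≤ κ * q := by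
        have h2 : (((r * v).valMinAbs.natAbs : ℕ) : ℝ) = |(((r * v).valMinAbs : ℤ) : ℝ)| := by
          rw [← Int.cast_abs, Int.abs_eq_natAbs, Int.cast_natCast]
        rw [h2]
        exact hr1.le
      have h2 : (r * v).valMinAbs.natAbs ≤ m := by
        rw [hm]
        exact Nat.le_floor h1
      omega
  have hinj : Set.InjOn (fun r : ZMod q => (r * v).valMinAbs)
      (univ.filter (fun r : ZMod q => r ≠ 0 ∧ nr (r * v) < κ) : Set (ZMod q)) := by
    intro a _ b _ hab
    have h1 : a * v = b * v := ZMod.injective_valMinAbs hab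
    exact mul_right_cancel₀ hv h1
  have h1 := Finset.card_le_card_of_injOn _ hmap hinj
  have h2 : ((Icc (-(m : ℤ)) m).erase 0).card = 2 * m := by
    rw [card_erase_of_mem (by rw [mem_Icc]; omega), Int.card_Icc]
    omega
  rw [h2] at h1
  have h3 : (m : ℝ) ≤ κ * q := by
    rw [hm]
    exact Nat.floor_le (by positivity)
  have h4 : ((univ.filter (fun r : ZMod q => r ≠ 0 ∧ nr (r * v) < κ)).card : ℝ) ≤ 2 * m := by
    exact_mod_cast h1
  linarith

theorem pf_RD : T_RD := by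
  classical
  intro k
  refine ⟨1 / (8 * (k + 1)), by positivity, ?_⟩
  intro q _ V hV
  have hq2 : (2 : ℝ) ≤ q := by exact_mod_cast (Fact.out : q.Prime).two_le
  by_contra hcon
  push Not at hcon
  obtain ⟨B, hB⟩ : ∃ B : ZMod q → Finset (ZMod q), B = fun v =>
    univ.filter (fun r : ZMod q => r ≠ 0 ∧ nr (r * v) < 1 / (8 * ((k : ℝ) + 1))) := ⟨_, rfl⟩
  have hsub : (univ.erase 0 : Finset (ZMod q)) ⊆ (V.erase 0).biUnion B := by
    intro r hr
    obtain ⟨v, hv, hv0, hlt⟩ := hcon r (ne_of_mem_erase hr)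
    rw [mem_biUnion]
    refine ⟨v, mem_erase.2 ⟨hv0, hv⟩, ?_⟩
    rw [hB]
    exact mem_filter.2 ⟨mem_univ _, ne_of_mem_erase hr, hlt⟩
  have h1 := card_le_card hsub
  rw [card_erase_of_mem (mem_univ _), card_univ, ZMod.card] at h1
  have h2 : (((V.erase 0).biUnion B).card : ℝ) ≤ k * (2 * (1 / (8 * ((k : ℝ) + 1))) * q) := by
    calc (((V.erase 0).biUnion B).card : ℝ) ≤ ∑ v ∈ V.erase 0, ((B v).card : ℝ) := by
          exact_mod_cast card_biUnion_le
      _ ≤ ∑ v ∈ V.erase 0, (2 * (1 / (8 * ((k : ℝ) + 1))) * q) := by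
          refine sum_le_sum fun v hv => ?_
          rw [hB]
          exact card_small q _ (by positivity) v (ne_of_mem_erase hv)
      _ = ((V.erase 0).card : ℝ) * (2 * (1 / (8 * ((k : ℝ) + 1))) * q) := by
          rw [sum_const, nsmul_eq_mul]
      _ ≤ k * (2 * (1 / (8 * ((k : ℝ) + 1))) * q) := by
          refine mul_le_mul_of_nonneg_right ?_ (by positivity)
          exact_mod_cast (card_erase_le).trans hV
  have h3 : (k : ℝ) * (2 * (1 / (8 * ((k : ℝ) + 1))) * q) ≤ q / 4 := by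
    have hk : (0 : ℝ) < k + 1 := by positivity
    have e : (k : ℝ) * (2 * (1 / (8 * ((k : ℝ) + 1))) * q) = (k / (k + 1)) * (q / 4) := by
      field_simp
      ring
    rw [e]
    have h4 : (k : ℝ) / (k + 1) ≤ 1 := by
      rw [div_le_one hk]
      linarith
    nlinarith
  have h5 : ((q - 1 : ℕ) : ℝ) ≤ (((V.erase 0).biUnion B).card : ℝ) := by exact_mod_cast h1
  rw [Nat.cast_sub (Fact.out : q.Prime).one_le, Nat.cast_one] at h5
  linarith

end Pool.Agent.H63.GU
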